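import Pool.Agent.Lib.MP_b5021c_nt.O4V.H40.Fr1b
import Pool.Agent.Lib.MP_b5021c_nt.IfaceO4V

/-!
# MP_b5021c_nt, all `θ`, K odd, (O1-iv): the row O4_FR1
-/

set_option linter.unusedSectionVars false

namespace Pool.Agent.B5.O4V

open scoped LaurentPolynomial
open Polynomial
open Pool.Agent.B5.OOne (IvD)

section

variable {P L : Type} [Fintype P] [DecidableEq P] [AddCommGroup L] [Module.Free ℤ L]
  [Module.Finite ℤ L] {phi : L →+ (P → ℤ)} {D : AO ℤ L} {q f E : ℤ[X]} {a p : ℝ} {j g : ℕ}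
  {eta : L → (RO ℤ)ˣ} {C : Set L} {S0 S1 : L} {e0 e1 : (RO ℤ)ˣ} {i0 : P} {h0 : co phi i0 S0 = 1}
  {T : Ker (co phi i0)} {x : ℝ}

/-- The one variable data. -/
theorem ivd_of (h : KvB phi D q f E a p j eta g C S0 S1 e0 e1 i0 h0 T x) : IvD q f E a p j := by
  refine ⟨h.k.o, h.k.eq, h.n, h.k.ez, fun z hz => ?_⟩
  have h1 := h.rn.loc.le z hz
  simpa only [map_mul, map_add, map_one, aeval_X] using h1

/-- A port of `T` in the facet is outside `S0`. -/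
theorem port_T {i1 : P} (h1 : co (phO phi S0 i0) i1 T = 1) : phi S0 i1 = 0 := by
  by_contra hne
  have h2 : (if phi S0 i1 = 0 then phi (T : L) i1 else 0) = 1 := h1
  rw [if_neg hne] at h2
  exact zero_ne_one h2

/-- The data of the double closing in the facet. -/
def dpO (h0 : co phi i0 S0 = 1) (hT : (T : L) = S1) {i1 : P}
    (h1 : co (phO phi S0 i0) i1 T = 1) : Dp phi S0 S1 where
  i0 := i0
  h0 := h0
  T := T
  eT := hT
  i1 := i1
  k1 := co (phO phi S0 i0) i1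
  hk := by
    intro b
    change (if phi S0 i1 = 0 then phi (b : L) i1 else 0) = _
    rw [if_pos (port_T h1)]
  h1 := h1

/-- `-e * (-z) = ld e 1`. -/
theorem neg_tb (e : (RO ℤ)ˣ) : (-e) * tb = ld e 1 := by
  apply Units.ext
  rw [Units.val_mul, Units.val_neg, tb_val, ld, Units.val_mul, H40.uT_val]
  simp [mul_comm]

end

/-- O4_FR1. -/
theorem o4fr1 (W : KV.Rws) (hInj2 : Inj2S) (hV : VcoS) (hE2 : E2S) (hF1 : F1S) (hF2 : F2S)
    (hF3 : F3S) (hI : Inj1S) (hRk : RkUSS) (hRk1 : RkS) (hL : LMNS) (hMco : McoS) (hRnk : RnkS)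
    (hOfa : OfaS) (hOfb : OfbS) (hO1 : Oo1S) (hB : BpS) (hAf : O4afS) : O4fr1S := by
  intro P L _ _ _ _ _ phi D q f E a p j eta C S0 S1 e0 e1 i0 h0 T x i1 h1 hK
  have hA : RayA phi D E j eta S0 := by
    intro i h y hy w1 gg hw hg
    rw [hK.k.t0] at hy hw
    exact hAf P L phi D q f E a p j eta C S0 S1 e0 e1 i h y w1 gg hK.k hy hw hg
  have m : Mut D S0 S1 (eta S0) (eta S1) := by rw [hK.k.t0, hK.k.t1]; exact hK.k.mt
  have hm := fr1 W hInj2 hV hE2 hF1 hF2 hF3 hI hRk hL hMco hRnk hOfa hOfb hO1 hB hK.k.kc hK.k.o.f0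
    (ivd_of hK) hK.k.m0 hK.k.m1 m hA (dpO h0 hK.hT h1)
  rw [hK.k.t0, hK.k.t1, neg_tb, neg_tb] at hm
  have hker := KE.finrank_ker hRk1 h0
  unfold FrV
  have h3 : rk (supp (vV phi D S0 e0 e1 i0 h0 T i1 h1)) + 2 = Module.finrank ℤ L := hm
  omega

end Pool.Agent.B5.O4V
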