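import Pool.Agent.Lib.MP_b5021c_nt.IfaceO4V
import Pool.Agent.Lib.MP_b5021c_nt.KE.H96.Fa1

/-!
# MP_b5021c_nt, all `θ`, K odd, (O1-iv): the assembly of `Oo4S` (row O4_ASM)
-/

namespace Pool.Agent.B5.O4V

open scoped LaurentPolynomial
open Polynomial

/-- O4_ASM. -/
theorem oo4 (hFD : FDS) (hMco : McoS) (hPre : O4preS) (hA : O4aS) (hA2 : O4a2S) (hE2 : O4e2S)
    (hVB : O4vbS) (hFr1 : O4fr1S) (hFr2 : O4fr2S) (hNb : O4nbS) (hSf1 : O4sf1S) (hSf2 : O4sf2S)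
    (hEnd : O4endS) : Oo4S := by
  intro P L _ _ _ _ _ phi D q f a j eta g C hK hu
  obtain ⟨S0, hS0⟩ := hK.kc.ne
  obtain ⟨E, p, S1, e0, e1, k4⟩ := hPre P L phi D q f a j eta g C hK hu S0 hS0
  have hD : DD phi D := hK.ko.min.fp.dd
  have hrk := hK.ko.rk
  have hj := hK.ko.j2
  have m := k4.mt
  obtain ⟨i0, h0⟩ := KE.exists_port hD m.r0
  obtain ⟨i1, h1⟩ := KE.exists_port hD m.r1
  have h0' : phi S0 i0 = 1 := h0
  have h1' : phi S1 i1 = 1 := h1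
  have hd := (hMco ℤ P L phi D S0 S1 (-e0) (-e1) hD.inj hD.bin m).1
  have hS1i : phi S1 i0 = 0 := (hd i0).resolve_left (by rw [h0']; exact one_ne_zero)
  have hS0i : phi S0 i1 = 0 := (hd i1).resolve_right (by rw [h1']; exact one_ne_zero)
  -- `n = j`
  have hg : g = 1 ∨ 2 ≤ g := by have := hK.kc.g1; omega
  have hE0 : E.coeff 0 = j := by
    rcases hg with rfl | hg
    · obtain ⟨c, n, G, fd⟩ := hFD ℤ P L phi D S0 i0 (-e0) h0
        ⟨hD, by omega, m.r0, h0, KE.V0_ne_A k4.r0⟩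
      exact (hA P L phi D q f E a p j eta C S0 S1 e0 e1 i0 h0 c n G k4 fd).1
    · exact (hA2 P L phi D q f E a p j eta g C S0 S1 e0 e1 k4 hg).1
  have hSh := hE2 P L phi D q f E a p j eta g C S0 S1 e0 e1 k4
  obtain ⟨T, hT⟩ : ∃ T : Ker (co phi i0), (T : L) = S1 := ⟨⟨S1, hS1i⟩, rfl⟩
  obtain ⟨x, hvb⟩ := hVB P L phi D q f E a p j eta g C S0 S1 e0 e1 i0 h0 T k4 hE0 hT
  have hp1 : co (phO phi S0 i0) i1 T = 1 := by
    change (if phi S0 i1 = 0 then phi (T : L) i1 else 0) = 1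
    rw [if_pos hS0i, hT, h1']
  have hrkB := hvb.rk
  obtain ⟨c, n, G, fd⟩ := hFD ℤ P (Ker (co phi i0)) (phO phi S0 i0) (vB phi D S0 e0 i0 h0) T i1
    (ld e1 1) hp1 ⟨hvb.dd, by omega, hvb.ray, hp1, by
      have h2 := KE.V0_ne hvb.rn (k := 1) le_rfl
      exact_mod_cast h2⟩
  have hbig := hNb P L phi D q f E a p j eta g C S0 S1 e0 e1 i0 h0 T x i1 hp1 c n G hvb hSh fd
  rcases hg with rfl | hg
  · have hFr := hFr1 P L phi D q f E a p j eta C S0 S1 e0 e1 i0 h0 T x i1 hp1 hvb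
    have hs := hSf1 P L phi D q f E a p j eta C S0 S1 e0 e1 i0 h0 T x i1 hp1 c n G hvb hFr fd hbig
    exact hEnd P L phi D q f E a p j eta 1 C S0 S1 e0 e1 i0 h0 T x i1 hp1 c n G hvb hSh hFr fd
      hbig hs
  · have hFr := hFr2 P L phi D q f E a p j eta g C S0 S1 e0 e1 i0 h0 T i1 hp1 k4 hg hT
    have hs := hSf2 P L phi D q f E a p j eta g C S0 S1 e0 e1 i0 h0 T x i1 hp1 c n G hvb hg hFr fd
      hbig
    exact hEnd P L phi D q f E a p j eta g C S0 S1 e0 e1 i0 h0 T x i1 hp1 c n G hvb hSh hFr fd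
      hbig hs

end Pool.Agent.B5.O4V
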