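import Pool.Agent.Lib.MP_b5021c_nt.O4V.H40.Fr
import Pool.Agent.Lib.MP_b5021c_nt.KO.H42.Nbw
import Pool.Agent.Lib.MP_b5021c_nt.IfaceE5T

/-!
# MP_b5021c_nt, all `θ`, K odd, (O1-iv), (4.5): the end (row O4_END)
-/

set_option linter.unusedSectionVars false

namespace Pool.Agent.B5.O4V

open scoped LaurentPolynomial
open Polynomial
open Pool.Agent.B5.KE
open Pool.Agent.B5.OOne (IvD)

section

variable {P L : Type} [Fintype P] [DecidableEq P] [AddCommGroup L] [Module.Free ℤ L]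
  [Module.Finite ℤ L] {phi : L →+ (P → ℤ)} {D : AO ℤ L} {S : L} {i0 : P} {eta : (RO ℤ)ˣ}
  {h : co phi i0 S = 1} {c : RO ℤ} {n : ℕ} {G : Fin n → AO ℤ (Ker (co phi i0))}

/-- The kernel meets the line of `S` trivially. -/
theorem key_im (hI : ImS phi S) (h : co phi i0 S = 1) (a : Ker (co phi i0))
    (ha : ∀ j, phi S j = 0 → phi (a : L) j = 0) : a = 0 := by
  obtain ⟨k, hk⟩ := hI (a : L) ha
  have h1 : co phi i0 (a : L) = 0 := a.2
  rw [hk, map_zsmul, h, smul_eq_mul, mul_one] at h1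
  apply Subtype.ext
  rw [hk, h1, zero_smul]
  rfl

theorem nopure_im (hI : ImS phi S) (fd : FD phi D S i0 eta h c n G) (l : Fin n) :
    ¬ Pure phi S i0 (G l) := by
  intro hl
  obtain ⟨a, ha, b, hb, hab⟩ := fd.wd l
  apply hab
  have h1 : a = 0 := key_im hI h a fun j hj => hl a ha j (by
    unfold OO
    exact Finset.mem_filter.mpr ⟨Finset.mem_univ _, hj⟩)
  have h2 : b = 0 := key_im hI h b fun j hj => hl b hb j (by
    unfold OO
    exact Finset.mem_filter.mpr ⟨Finset.mem_univ _, hj⟩)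
  rw [h1, h2]

/-- No small factor: all factors are big. -/
theorem big_im (hI : ImS phi S) (fd : FD phi D S i0 eta h c n G) (hs : snp phi S i0 G = ∅)
    (i : Fin n) : 1 < M ((G i).coeff 0) := by
  classical
  by_contra hcon
  have h1 : i ∈ snp phi S i0 G := by
    unfold snp
    exact Finset.mem_filter.mpr ⟨Finset.mem_univ i, hcon, nopure_im hI fd i⟩
  rw [hs] at h1
  exact absurd h1 (Finset.notMem_empty i)

/-- One factor and no drop: the factor is an element of `DD` on the kernel. -/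
theorem dd_im (hRk : RkS) (hG0 : G0S) (hI : ImS phi S) (fd : FD phi D S i0 eta h c n G)
    (hdr : Module.finrank ℤ L = rk (supp (cl (co phi i0) S h eta D)) + 1) {l : Fin n}
    (hl : ∀ i, i = l) :
    cl (co phi i0) S h eta D = cst c * G l ∧ DD (phO phi S i0) (G l) := by
  have hprod : ∏ i, G i = G l := by
    rw [Finset.prod_eq_single l]
    · intro i _ hi
      exact absurd (hl i) hi
    · intro hi
      exact absurd (Finset.mem_univ l) hi
  have h1 : cl (co phi i0) S h eta D = cst c * G l := by rw [fd.eq, hprod]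
  have h2 : supp (cl (co phi i0) S h eta D) = supp (G l) := by
    rw [h1, H56.supp_cst_mul fd.c0]
  refine ⟨h1, ?_, ?_, fd.st l, fd.un l, fd.irr l, ?_⟩
  · rw [injective_iff_map_eq_zero]
    intro a ha
    apply key_im hI h
    intro j hj
    have h4 : phO phi S i0 a j = 0 := by rw [ha]; rfl
    change (if phi S j = 0 then phi (a : L) j else 0) = 0 at h4
    rw [if_pos hj] at h4
    exact h4
  · intro a ha j
    rw [← h2] at ha
    have h5 := (hG0 ℤ P L phi D S i0 eta h fd.cc).2.2.2.1 a ha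
    change (if phi S j = 0 then phi (a : L) j else 0) = 0 ∨
      (if phi S j = 0 then phi (a : L) j else 0) = 1
    by_cases hj : phi S j = 0
    · rw [if_pos hj]
      exact h5.1 j (by
        unfold OO
        exact Finset.mem_filter.mpr ⟨Finset.mem_univ _, hj⟩)
    · left
      rw [if_neg hj]
  · rw [← h2]
    have h3 := finrank_ker hRk h
    omega

/-- A good load `T^k`: the sign at `1/j`; `D` in `DD` only. -/
theorem neg_im (hPc : PCZS) (hE1 : E1S) (hMV : MVS) (hMm : MmulS) (hRk : RkS) (hG0 : G0S)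
    {q f : ℤ[X]} {e : (RO ℤ)ˣ} {a : ℝ} {k j : ℕ} (hI : ImS phi S) (hR : RN D S q f e a)
    (hk : 1 ≤ k) (fd : FD phi D S i0 (ld e k) h c n G) (hs : snp phi S i0 G = ∅)
    (hdr : Module.finrank ℤ L = rk (supp (cl (co phi i0) S h (ld e k) D)) + 1)
    (hj : 2 ≤ j) (hfr : Module.finrank ℤ L = 2 * j) (hIH : Bnk (2 * j - 1)) :
    (aeval (1 / (j : ℝ)) (q + X ^ k * f) : ℝ) ≤ 0 := by
  have hj' : (2 : ℝ) ≤ j := by exact_mod_cast hj
  have hx : ∀ i, (G i).coeff 0 ≠ 0 := fun i => (fd.st i).1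
  have hc0 : (q + X ^ k * f).coeff 0 = 1 := by
    rw [coeff_add, hR.loc.q0, mul_coeff_zero, coeff_X_pow, if_neg (by omega), zero_mul, add_zero]
  obtain ⟨l⟩ := fac_ex fd (by omega)
  have hbig := big_im hI fd hs
  rcases lob hPc hR.loc hR.u hR.ne hk with h1 | ⟨b, hab, hb1, hb⟩
  · exfalso
    -- class `V(1)`: measure one
    have h2 : ClassV 1 (D.coeff 0 + ((ld e k : (RO ℤ)ˣ) : RO ℤ) * D.coeff S) := by
      refine ⟨le_refl 1, 0, q + X ^ k * f, ?_, ?_, ?_⟩
      · rw [V0_ld hR, LaurentPolynomial.T_zero, one_mul]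
      · rw [hc0, map_one, norm_one]
      · intro z hz
        rw [ev_map]
        exact h1 z hz
    have h3 := ((hMV ℤ).1 _ _ h2).2
    have h4 := H56.one_lt_prod hMm Finset.univ _ hx l (Finset.mem_univ l) (hbig l)
    rw [fd.v00, (hMm ℤ).1 _ _ fd.c0 (Finset.prod_ne_zero_iff.mpr fun i _ => hx i)] at h3
    have h5 := (hMm ℤ).2.1 c
    nlinarith
  · have hb0 : 0 < b := lt_trans hR.loc.a0 hab
    have h2 : ClassP b⁻¹ (D.coeff 0 + ((ld e k : (RO ℤ)ˣ) : RO ℤ) * D.coeff S) := by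
      rw [V0_ld hR]
      exact classP_of hb0 hb1 hc0 hb
    rw [fd.v00] at h2
    obtain ⟨h3, h4, -⟩ := one_fac hE1 hMV hMm fd.c0 hx h2 hbig l
    obtain ⟨-, h5⟩ := dd_im hRk hG0 hI fd hdr h3
    have hker := finrank_ker hRk h
    have h6 := (hIH b⁻¹ P (Ker (co phi i0)) (phO phi S i0) (G l) h5 h4 (by omega)).2 (by
      rw [Nat.odd_iff]
      omega)
    have h7 : (((2 * j - 1 : ℕ) : ℝ)) = 2 * j - 1 := by
      rw [Nat.cast_sub (by omega)]
      push_cast
      ring
    rw [h7] at h6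
    have h8 : (j : ℝ) ≤ b⁻¹ := by linarith
    have h9 : b ≤ 1 / j := by
      rw [le_div_iff₀ (by linarith)]
      have := mul_le_mul_of_nonneg_left h8 hb0.le
      rw [mul_inv_cancel₀ hb0.ne'] at this
      exact this
    refine sgn hk hR.loc.q0 hb0 hb h9 ?_
    rw [div_lt_one (by linarith)]
    linarith

end

/-- O4_END. -/
theorem o4end (hPc : PCZS) (hE1 : E1S) (hMV : MVS) (hMm : MmulS) (hRk : RkS) (hG0 : G0S) :
    O4endS := by
  intro P L _ _ _ _ _ phi D q f E a p j eta g C S0 S1 e0 e1 i0 h0 T x i1 h1 c n G hK hSh hFr fd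
    _ hs
  have hj := hK.k.kc.ko.j2
  have hiv := ivd_of hK
  have hdr : Module.finrank ℤ (Ker (co phi i0)) =
      rk (supp (cl (co (phO phi S0 i0) i1) T h1 (ld e1 (1 : ℕ)) (vB phi D S0 e0 i0 h0))) + 1 :=
    hFr
  have h2 := neg_im hPc hE1 hMV hMm hRk hG0 (k := 1) hK.im hK.rn le_rfl fd hs hdr hj hK.rk
    (hK.k.kc.ko.ih _ (by omega))
  have heq : q + X * f + X ^ 1 * ((1 + X) * f) = (1 + X) ^ 2 * f - X * E := by
    rw [← hK.k.eq]
    ring
  rw [heq, map_sub, map_mul, map_mul, map_pow, map_add, map_one, aeval_X] at h2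
  rcases Nat.lt_or_ge j 3 with h3 | h3
  · have hj2 : j = 2 := by omega
    subst hj2
    obtain ⟨k, t, hk, ht, rfl⟩ := hSh rfl
    exact hiv.ive2 ht hk (by exact_mod_cast h2)
  · exact hiv.ive h3 h2

end Pool.Agent.B5.O4V
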