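import Pool.Agent.Lib.MP_b5021c_nt.H41.D3f
import Pool.Agent.Lib.MP_b5021c_nt.IfaceF

/-!
# MP_b5021c_nt, all `θ`, K odd, (O1-iv): extreme classes of a finite set modulo a subgroup
-/

namespace Pool.Agent.B5.O4V

variable {L : Type} [AddCommGroup L] [Module.Free ℤ L] [Module.Finite ℤ L]

/-- A functional which is zero on `K` and at `R`, not zero at `v`. -/
theorem sepK (K : Submodule ℤ L) (R v : L) (hv : v ∉ satur (K ⊔ Submodule.span ℤ {R})) :
    ∃ mu : L →+ ℤ, (∀ a ∈ K, mu a = 0) ∧ mu R = 0 ∧ mu v ≠ 0 := by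
  obtain ⟨mu, h1, h2⟩ := H41.sep ((K : Set L) ∪ {R}) v (by
    intro n hn h
    apply hv
    refine ⟨n, hn, ?_⟩
    have h3 : Submodule.span ℤ ((K : Set L) ∪ {R}) = K ⊔ Submodule.span ℤ {R} := by
      rw [Submodule.span_union, Submodule.span_eq]
    rwa [h3] at h)
  exact ⟨mu, fun a ha => h1 a (Or.inl ha), h1 R (Or.inr rfl), h2⟩

/-- The elements with the largest quotient `psi / lam0` in `Z`. -/
theorem max_ratio (Z : Finset L) (hZ : Z.Nonempty) (lam0 psi : L →+ ℤ)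
    (hpos : ∀ a ∈ Z, 0 < lam0 a) : ∃ a0 ∈ Z, ∀ b ∈ Z, psi b * lam0 a0 ≤ psi a0 * lam0 b := by
  obtain ⟨a0, ha0, h⟩ := Finset.exists_max_image Z
    (fun b => ((psi b : ℚ) / (lam0 b : ℚ))) hZ
  refine ⟨a0, ha0, fun b hb => ?_⟩
  have h1 := h b hb
  have h2 : (0 : ℚ) < lam0 a0 := by exact_mod_cast hpos a0 ha0
  have h3 : (0 : ℚ) < lam0 b := by exact_mod_cast hpos b hb
  rw [div_le_div_iff₀ h3 h2] at h1
  exact_mod_cast h1

/-- (EXT) AN EXTREME CLASS MODULO `K` on which `nu` is positive. -/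
theorem ext_class (A : Finset L) (K : Submodule ℤ L) (lam0 nu : L →+ ℤ)
    (h0 : ∀ k ∈ K, lam0 k = 0) (hn : ∀ k ∈ K, nu k = 0) (hpos : ∀ a ∈ A, 0 < lam0 a)
    (hb : ∃ b ∈ A, 0 < nu b) :
    ∃ R ∈ A, 0 < nu R ∧ ∃ lam : L →+ ℤ, (∀ k ∈ K, lam k = 0) ∧ lam R = 0 ∧
      ∀ a ∈ A, 0 ≤ lam a ∧ (lam a = 0 → 0 < nu a ∧ a ∈ satur (K ⊔ Submodule.span ℤ {R})) := by
  classical
  let F : Set (L →+ ℤ) := {lam | (∀ k ∈ K, lam k = 0) ∧ (∀ a ∈ A, 0 ≤ lam a) ∧
    (∃ a ∈ A, lam a = 0) ∧ ∀ a ∈ A, lam a = 0 → 0 < nu a}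
  -- `F` is not empty
  have hF : F.Nonempty := by
    obtain ⟨b, hbA, hb0⟩ := hb
    obtain ⟨a0, ha0, hmax⟩ := max_ratio A ⟨b, hbA⟩ lam0 nu hpos
    have hna : 0 < nu a0 := by
      have h1 := hmax b hbA
      have h2 := hpos a0 ha0
      have h3 := hpos b hbA
      by_contra hcon
      push Not at hcon
      nlinarith
    refine ⟨(nu a0) • lam0 - (lam0 a0) • nu, ?_, ?_, ⟨a0, ha0, ?_⟩, ?_⟩
    · intro k hk
      rw [AddMonoidHom.sub_apply, AddMonoidHom.smul_apply, AddMonoidHom.smul_apply, h0 k hk,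
        hn k hk]
      simp
    · intro a ha
      rw [AddMonoidHom.sub_apply, AddMonoidHom.smul_apply, AddMonoidHom.smul_apply, smul_eq_mul,
        smul_eq_mul]
      have := hmax a ha
      linarith
    · rw [AddMonoidHom.sub_apply, AddMonoidHom.smul_apply, AddMonoidHom.smul_apply, smul_eq_mul,
        smul_eq_mul]
      ring
    · intro a ha h1
      rw [AddMonoidHom.sub_apply, AddMonoidHom.smul_apply, AddMonoidHom.smul_apply, smul_eq_mul,
        smul_eq_mul] at h1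
      have h2 := hpos a ha
      have h3 := hpos a0 ha0
      by_contra hcon
      push Not at hcon
      nlinarith [mul_pos hna h2]
  -- a functional with the smallest zero set
  obtain ⟨lam, hlam, hmin⟩ := WellFounded.has_min
    (measure (fun lam : L →+ ℤ => (A.filter (fun a => lam a = 0)).card)).wf F hF
  obtain ⟨hK, hge, ⟨R, hRA, hR0⟩, hnu⟩ := id hlam
  refine ⟨R, hRA, hnu R hRA hR0, lam, hK, hR0, fun a ha => ⟨hge a ha, fun ha0 =>
    ⟨hnu a ha ha0, ?_⟩⟩⟩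
  by_contra hcon
  obtain ⟨psi', hpK', hpR', hpa'⟩ := sepK K R a hcon
  obtain ⟨psi, hpK, hpR, hpa⟩ : ∃ psi : L →+ ℤ, (∀ k ∈ K, psi k = 0) ∧ psi R = 0 ∧ 0 < psi a := by
    rcases lt_or_gt_of_ne hpa' with h | h
    · refine ⟨-psi', fun k hk => ?_, ?_, ?_⟩
      · rw [AddMonoidHom.neg_apply, hpK' k hk, neg_zero]
      · rw [AddMonoidHom.neg_apply, hpR', neg_zero]
      · rw [AddMonoidHom.neg_apply]
        omega
    · exact ⟨psi', hpK', hpR', h⟩
  set Z := A.filter (fun a => lam a = 0) with hZ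
  have haZ : a ∈ Z := Finset.mem_filter.mpr ⟨ha, ha0⟩
  have hRZ : R ∈ Z := Finset.mem_filter.mpr ⟨hRA, hR0⟩
  obtain ⟨a0, ha0Z, hmax⟩ := max_ratio Z ⟨a, haZ⟩ lam0 psi
    (fun b hb => hpos b (Finset.mem_filter.mp hb).1)
  have ha0A := (Finset.mem_filter.mp ha0Z).1
  have h3 := hpos a0 ha0A
  have hpa0 : 0 < psi a0 := by
    have h1 := hmax a haZ
    have h4 := hpos a ha
    by_contra hcon
    push Not at hcon
    nlinarith
  -- a bound
  obtain ⟨N, hN⟩ : ∃ N : ℤ, ∀ b ∈ A, -(psi a0 * lam0 b - lam0 a0 * psi b) < N := by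
    obtain ⟨N, hN⟩ := (A.image (fun b => -(psi a0 * lam0 b - lam0 a0 * psi b))).bddAbove
    refine ⟨N + 1, fun b hb => ?_⟩
    have := hN (Finset.mem_coe.mpr (Finset.mem_image_of_mem _ hb))
    linarith
  set N1 : ℤ := max N 1 with hN1
  have hN1p : 1 ≤ N1 := le_max_right _ _
  set lam' : L →+ ℤ := N1 • lam + ((psi a0) • lam0 - (lam0 a0) • psi) with hlam'
  have hev : ∀ b, lam' b = N1 * lam b + (psi a0 * lam0 b - lam0 a0 * psi b) := by
    intro b
    rw [hlam', AddMonoidHom.add_apply, AddMonoidHom.sub_apply, AddMonoidHom.smul_apply,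
      AddMonoidHom.smul_apply, AddMonoidHom.smul_apply, smul_eq_mul, smul_eq_mul, smul_eq_mul]
  have hzero : ∀ b ∈ A, lam' b = 0 → lam b = 0 := by
    intro b hb h1
    rw [hev] at h1
    have h2 := hge b hb
    by_contra hne
    have h4 : 1 ≤ lam b := by omega
    have h5 := hN b hb
    have h6 : N ≤ N1 := le_max_left _ _
    nlinarith
  have hF' : lam' ∈ F := by
    refine ⟨?_, ?_, ⟨a0, ha0A, ?_⟩, ?_⟩
    · intro k hk
      rw [hev, hK k hk, h0 k hk, hpK k hk]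
      ring
    · intro b hb
      rw [hev]
      rcases eq_or_lt_of_le (hge b hb) with h1 | h1
      · have h4 := hmax b (Finset.mem_filter.mpr ⟨hb, h1.symm⟩)
        rw [← h1]
        linarith
      · have h5 := hN b hb
        have h6 : N ≤ N1 := le_max_left _ _
        nlinarith
    · rw [hev, (Finset.mem_filter.mp ha0Z).2]
      ring
    · intro b hb h1
      exact hnu b hb (hzero b hb h1)
  have hlt : (A.filter (fun a => lam' a = 0)).card < Z.card := by
    apply Finset.card_lt_card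
    rw [Finset.ssubset_iff_of_subset]
    · refine ⟨R, hRZ, fun h => ?_⟩
      have h1 := (Finset.mem_filter.mp h).2
      rw [hev, hR0, hpR] at h1
      have h2 := hpos R hRA
      nlinarith [mul_pos hpa0 h2]
    · intro b hb
      obtain ⟨h1, h2⟩ := Finset.mem_filter.mp hb
      exact Finset.mem_filter.mpr ⟨h1, hzero b h1 h2⟩
  exact hmin lam' hF' hlt

end Pool.Agent.B5.O4V
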