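import Pool.Agent.Lib.MP_b5021c_nt.O4V.H40.Raye
import Pool.Agent.Lib.MP_b5021c_nt.KO.H96.Patx2

/-!
# MP_b5021c_nt, all `θ`, K odd, (O1-iv), (4.3): the double closing `(B, B)` of an A-A pair has full
rank (drop one), part 1: the moved rays
-/

set_option linter.unusedSectionVars false

namespace Pool.Agent.B5.O4V

open scoped LaurentPolynomial
open Polynomial
open Pool.Agent.B5.H07 (US_sat mem_US)
open Pool.Agent.B5.KV (cs)

/-- A multiple of `2 + z` has an even lowest coefficient. -/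
theorem even_low {w : RO ℤ} {f : ℤ[X]} (hf : f.coeff 0 ≠ 0)
    (h : w * toLaurent (2 + X : ℤ[X]) = toLaurent f) : ∃ s : ℤ, f.coeff 0 = 2 * s := by
  have hw : w ≠ 0 := by
    rintro rfl
    rw [zero_mul] at h
    have h1 : f = 0 := toLaurent_injective (by rw [map_zero]; exact h.symm)
    rw [h1, coeff_zero] at hf
    exact hf rfl
  obtain ⟨n, g, hg, hg0⟩ := H40.exists_normal w hw
  have h2 : (LaurentPolynomial.T n : RO ℤ) * toLaurent (g * (2 + X)) =
      LaurentPolynomial.T 0 * toLaurent f := by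
    rw [LaurentPolynomial.T_zero, one_mul, ← h, hg, map_mul]
    ring
  have h3 : (g * (2 + X : ℤ[X])).coeff 0 = g.coeff 0 * 2 := by
    rw [mul_coeff_zero, coeff_add, coeff_X_zero, add_zero]
    simp
  obtain ⟨-, h4⟩ := H56.nf_unique n 0 _ f (by rw [h3]; exact mul_ne_zero hg0 two_ne_zero) hf h2
  exact ⟨g.coeff 0, by rw [← h4, h3, mul_comm]⟩

section

variable {P L : Type} [Fintype P] [DecidableEq P] [AddCommGroup L] [Module.Free ℤ L]
  [Module.Finite ℤ L] {phi : L →+ (P → ℤ)} {D : AO ℤ L}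

/-- A ray whose coefficient is a multiple of `1 - (1 + z)²` has `f(0)` even. -/
theorem even_ray {R : L} {q f : ℤ[X]} {e : (RO ℤ)ˣ} {a : ℝ} (hR : RN D R q f e a) {r : RO ℤ}
    (h : D.coeff R = r * (1 - lb)) : f.coeff 0 ≠ 1 := by
  intro h1
  have hu := hR.u
  obtain ⟨s, hs⟩ := even_low (w := -((e : RO ℤ) * r * LaurentPolynomial.T 1)) (f := f)
    (by omega) (by
    rw [← hR.DS, h, one_sub_lb']
    ring)
  omega

/-- THE MOVED RAYS: the coefficient `p` of the class is `(1 + z)² f` up to a unit. -/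
theorem moved (hE2 : E2S) (hF1 : F1S) (hF2 : F2S) (hF3 : F3S) (hI : Inj1S) (hRk : RkUSS)
    (hL : LMNS) (hMco : McoS) (hMnf : MnfS) (hMpa : MpaS) (hOfb : OfbS) {q f : ℤ[X]} {a : ℝ}
    {j g : ℕ} {eta : L → (RO ℤ)ˣ} {C : Set L} (W : KcA phi D q f a j eta g C)
    (hu : f.coeff 0 = 1) (hdes : KO.Des phi D q a eta) {S0 S1 : L} (hS0 : S0 ∈ C) (hS1 : S1 ∈ C)
    (m : Mut D S0 S1 (eta S0) (eta S1)) {nu : L →+ ℤ}
    (hk : Kil phi D S0 S1 (eta S0 * tb) (eta S1 * tb) nu) {R : L} (hR : Ray D R)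
    (hn : nu R ≠ 0) : Out phi S0 S1 R ∧ ∃ (i j : ℕ) (p r : RO ℤ),
      Kb D S0 S1 (eta S0) (eta S1) R i j p r ∧
        ∃ w : (RO ℤ)ˣ, (w : RO ℤ) * p = lb * toLaurent f := by
  have fp := W.ko.min.fp
  have hD := fp.dd
  have h2 : 2 ≤ Module.finrank ℤ L := by have := W.ko.rk; have := W.ko.j2; omega
  obtain ⟨ho, i, k, p, r, kb⟩ := kb_ray hMnf hMpa hD.inj hD.bin m hk hR hn
  refine ⟨ho, i, k, p, r, kb, ?_⟩
  by_cases hRC : R ∈ C
  · obtain ⟨eR, heR, hRN⟩ := W.rn R hRC
    by_cases hik : i = 0 ∧ k = 0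
    · exfalso
      have c0 := kb.nf.c00
      rw [if_pos hik] at c0
      have h1 := kb.th
      rw [hik.1, hik.2, pow_zero, mul_one, mul_one] at h1
      exact even_ray hRN (r := r) (by rw [c0, h1]; ring) hu
    · have c0 := kb.nf.c00
      rw [if_neg hik, zero_add] at c0
      refine ⟨-(eR * tb ^ i * tb ^ k), ?_⟩
      have h1 := kb.th
      have h3 := hRN.DS
      rw [c0] at h3
      rw [Units.val_neg, Units.val_mul, Units.val_mul, Units.val_pow_eq_pow_val,
        Units.val_pow_eq_pow_val]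
      linear_combination -(eR : RO ℤ) * h1 + lb * h3
  · have hU0 := KO.Kc_out W.kc hS0 hR hRC
    have hU1 := KO.Kc_out W.kc hS1 hR hRC
    have hk0 : k = 0 := by
      rcases Nat.le_one_iff_eq_zero_or_eq_one.mp kb.nf.j1 with h | h
      · exact h
      · exfalso
        apply m.m0
        have h1 := Submodule.sub_mem _ kb.u0' hU0
        rwa [h, one_smul, add_sub_cancel_left] at h1
    have hi0 : i = 0 := by
      rcases Nat.le_one_iff_eq_zero_or_eq_one.mp kb.nf.i1 with h | h
      · exact h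
      · exfalso
        apply m.m1
        have h1 := Submodule.sub_mem _ kb.u1' hU1
        rwa [h, one_smul, add_sub_cancel_left] at h1
    subst hk0; subst hi0
    have c0 := kb.nf.c00
    rw [if_pos ⟨rfl, rfl⟩] at c0
    have h1 := kb.th
    rw [pow_zero, mul_one, mul_one] at h1
    obtain ⟨e0, he0, hRN0⟩ := W.rn S0 hS0
    by_cases hne : (eta R : RO ℤ) * D.coeff R = (1 - lb) * ((eta S0 : RO ℤ) * D.coeff S0)
    · refine ⟨eta R, ?_⟩
      have h3 : (1 - lb) * ((eta R : RO ℤ) * r + toLaurent f) = 0 := by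
        have h4 : (eta S0 : RO ℤ) * D.coeff S0 = -toLaurent f := by
          rw [he0, KO.neg_S hRN0, map_neg]
        rw [h4, c0, h1] at hne
        linear_combination hne
      have h4 := (mul_eq_zero.mp h3).resolve_left one_sub_lb
      linear_combination (eta R : RO ℤ) * h1 - lb * h4
    · exfalso
      have h3 : (1 - (1 - (tb : RO ℤ)) * (1 - (tb : RO ℤ))) = 1 - lb := by rw [tb_lb]
      obtain ⟨R', r', hFm, -, -, -, -, -, -, -, hco, -, -⟩ := KO.Kc_patx2 hF1 hF2 hF3 hI hMco fp
        W.kc (hdes.abd hE2 hRk hD h2) hS0 m hk hR hn hRC (by rw [h3]; exact hne)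
      rw [h3] at hco
      obtain ⟨g', f', e', hRN', h4⟩ := hFm.kcX hE2 hF3 hRk hL hMco W.ko hdes
      have h5 : f'.coeff 0 = 1 := by
        rcases h4 with ⟨-, h5⟩ | ⟨-, h5, -⟩
        · exact hOfb P L phi D q f' a j eta g' _ h5
        · exact h5
      exact even_ray hRN' hco h5

/-- The constant coefficient of the double closing. -/
theorem cs_zero {S0 S1 : L} {e0 e1 : (RO ℤ)ˣ} (hMco : McoS) (hD : DD phi D)
    (m : Mut D S0 S1 e0 e1) {q f : ℤ[X]} (h0 : D.coeff 0 = toLaurent q)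
    (h1 : (e0 : RO ℤ) * D.coeff S0 = -toLaurent f) :
    cs D S0 S1 (e0 * tb) (e1 * tb) 0 = toLaurent (q - f + (1 + X) ^ 2 * f) := by
  obtain ⟨-, h2, h3, -⟩ := hMco ℤ P L phi D S0 S1 e0 e1 hD.inj hD.bin m
  have h4 : (toLaurent (q - f + (1 + X) ^ 2 * f) : RO ℤ) =
      toLaurent q - toLaurent f + lb * toLaurent f := by rw [map_add, map_sub, map_mul]; rfl
  have h5 := tb_lb
  have h6 : D.coeff (0 + S0 + S1) = D.coeff (S0 + S1) := by rw [zero_add]
  have h7 : D.coeff (0 + S0) = D.coeff S0 := by rw [zero_add]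
  have h8 : D.coeff (0 + S1) = D.coeff S1 := by rw [zero_add]
  unfold cs
  rw [h6, h7, h8, h0, h4, Units.val_mul, Units.val_mul]
  linear_combination ((tb : RO ℤ) + (tb : RO ℤ) - (tb : RO ℤ) * (tb : RO ℤ)) * h1 +
    (tb : RO ℤ) * h2 + (tb : RO ℤ) * (tb : RO ℤ) * h3 + toLaurent f * h5

/-- A KILLING FUNCTIONAL GIVES AN EXPOSED MOVED CLASS whose base is a ray. -/
theorem kil_ext (W : KV.Rws) (hInj2 : Inj2S) (hD2 : 2 ≤ Module.finrank ℤ L) (fp : FP phi D)
    {S0 S1 : L} {e0 e1 : (RO ℤ)ˣ} (m : Mut D S0 S1 e0 e1) {nu : L →+ ℤ}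
    (hk : Kil phi D S0 S1 (e0 * tb) (e1 * tb) nu) (hnu : nu ≠ 0)
    (hap : cs D S0 S1 (e0 * tb) (e1 * tb) 0 ≠ 0) :
    ∃ (a : L) (lam : L →+ ℤ), Ray D a ∧ nu a ≠ 0 ∧ Xpo D S0 S1 a lam := by
  classical
  have hD := fp.dd
  obtain ⟨⟨R, hR, hR0⟩, -⟩ := KV.signs W fp hD2 m hk hnu hap
  obtain ⟨i0, h0⟩ := KE.exists_port hD m.r0
  obtain ⟨i1, h1⟩ := KE.exists_port hD m.r1
  have h0' : phi S0 i0 = 1 := h0
  have h1' : phi S1 i1 = 1 := h1
  obtain ⟨p0, p1⟩ := port_val W.mco hD.inj hD.bin m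
  -- the ports outside the pair
  set Q : Finset P := Finset.univ.filter fun i => phi S0 i = 0 ∧ phi S1 i = 0 with hQ
  set lam0 : L →+ ℤ := ∑ i ∈ Q, co phi i with hlam0
  have hev : ∀ b, lam0 b = ∑ i ∈ Q, phi b i := by
    intro b
    rw [hlam0, AddMonoidHom.finsetSum_apply]
    rfl
  set K : Submodule ℤ L := Submodule.span ℤ {S0, S1} with hK
  have hKz : ∀ mu : L →+ ℤ, mu S0 = 0 → mu S1 = 0 → ∀ k ∈ K, mu k = 0 := by
    intro mu h2 h3 k hkK
    rw [hK, Submodule.mem_span_pair] at hkK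
    obtain ⟨c, d, hcd⟩ := hkK
    rw [← hcd, map_add, map_zsmul, map_zsmul, h2, h3, smul_zero, smul_zero, add_zero]
  have hl0 : lam0 S0 = 0 ∧ lam0 S1 = 0 := by
    constructor
    · rw [hev]
      exact Finset.sum_eq_zero fun i hi => (Finset.mem_filter.mp hi).2.1
    · rw [hev]
      exact Finset.sum_eq_zero fun i hi => (Finset.mem_filter.mp hi).2.2
  have hnn : ∀ b ∈ supp D, 0 ≤ lam0 b := by
    intro b hb
    rw [hev]
    refine Finset.sum_nonneg fun i _ => ?_
    rcases hD.bin b hb i with h | h <;> rw [h] <;> norm_num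
  have hzero : ∀ b ∈ supp D, lam0 b = 0 → ∃ k l : ℤ, b = k • S0 + l • S1 := by
    intro b hb hz
    apply hInj2 ℤ P L phi D S0 S1 e0 e1 fp m.r0 m.r1 m.m0 m.m1
    intro i hi0 hi1
    rw [hev] at hz
    have h2 := (Finset.sum_eq_zero_iff_of_nonneg (fun i _ => by
      rcases hD.bin b hb i with h | h <;> rw [h] <;> norm_num)).mp hz i
    exact h2 (Finset.mem_filter.mpr ⟨Finset.mem_univ i, hi0, hi1⟩)
  set A : Finset L := D.coeff.support.filter fun b => 0 < lam0 b with hA
  have memA : ∀ b, b ∈ A ↔ b ∈ supp D ∧ 0 < lam0 b := by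
    intro b
    simp only [hA, Finset.mem_filter, Finsupp.mem_support_iff, supp, Set.mem_ofPred_eq]
  have hRA : R ∈ A := by
    rw [memA]
    refine ⟨hR.1, ?_⟩
    rcases eq_or_lt_of_le (hnn R hR.1) with h | h
    · exfalso
      obtain ⟨k, l, hkl⟩ := hzero R hR.1 h.symm
      rw [hkl, map_add, map_zsmul, map_zsmul, hk.s0, hk.s1] at hR0
      simp at hR0
    · exact h
  obtain ⟨R0, hR0A, hR0n, lam, hlK, hlR, hl⟩ := ext_class A K lam0 nu (hKz _ hl0.1 hl0.2)
    (hKz _ hk.s0 hk.s1) (fun b hb => ((memA b).mp hb).2) ⟨R, hRA, hR0⟩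
  have hS0K : S0 ∈ K := Submodule.subset_span (by simp)
  have hS1K : S1 ∈ K := Submodule.subset_span (by simp)
  have hR0s := ((memA R0).mp hR0A).1
  obtain ⟨a, s, t, -, -, hRa, ho, hna, i, j, p, r, kb⟩ := kb_base W.mnf W.mpa hD.inj hD.bin m hk
    hR0s (by omega)
  have ha0 : a ≠ 0 := by
    rintro rfl
    rw [map_zero] at hna
    omega
  have la : lam a = 0 := by
    rw [hRa, map_add, map_add, map_nsmul, map_nsmul, hlK S0 hS0K, hlK S1 hS1K] at hlR
    simpa using hlR
  have hx : Xpo D S0 S1 a lam := by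
    refine ⟨hlK S0 hS0K, hlK S1 hS1K, la, ?_, ?_⟩
    · intro b hb
      by_cases hbA : b ∈ A
      · exact (hl b hbA).1
      · rcases eq_or_lt_of_le (hnn b hb) with h | h
        · obtain ⟨k, l, hkl⟩ := hzero b hb h.symm
          rw [hkl, map_add, map_zsmul, map_zsmul, hlK S0 hS0K, hlK S1 hS1K]
          simp
        · exact absurd ((memA b).mpr ⟨hb, h⟩) hbA
    · intro b hb hlb
      by_cases hbA : b ∈ A
      · right
        obtain ⟨-, h2⟩ := hl b hbA
        obtain ⟨hnb, hbs⟩ := h2 hlb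
        obtain ⟨a', s', t', -, -, hba, ho', hna', i', j', p', r', kb'⟩ := kb_base W.mnf W.mpa
          hD.inj hD.bin m hk hb (by omega)
        suffices h : a' = a by
          refine ⟨s', t', ?_⟩
          rw [hba, h, natCast_zsmul, natCast_zsmul]
        obtain ⟨n, hn, hnb2⟩ := hbs
        rw [Submodule.mem_sup] at hnb2
        obtain ⟨y, hy, w, hw, hyw⟩ := hnb2
        rw [hK, Submodule.mem_span_pair] at hy
        obtain ⟨c, d, hcd⟩ := hy
        obtain ⟨mm, hmm⟩ := Submodule.mem_span_singleton.mp hw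
        have e1 : n • a' = (c - n * s' + mm * s) • S0 + (d - n * t' + mm * t) • S1 + mm • a := by
          have e2 : n • b = n • a' + (n * s') • S0 + (n * t') • S1 := by
            rw [hba, smul_add, smul_add, mul_smul, mul_smul, natCast_zsmul, natCast_zsmul]
          have e3 : mm • R0 = mm • a + (mm * s) • S0 + (mm * t) • S1 := by
            rw [hRa, smul_add, smul_add, mul_smul, mul_smul, natCast_zsmul, natCast_zsmul]
          have e4 : n • a' = n • b - (n * s') • S0 - (n * t') • S1 := by rw [e2]; abel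
          rw [e4, ← hyw, ← hcd, ← hmm, e3]
          module
        have a0 : phi a i0 = 0 :=
          (ho i0).resolve_right (by rw [h0']; exact fun h => one_ne_zero h.1)
        have a1 : phi a i1 = 0 :=
          (ho i1).resolve_right (by rw [h1']; exact fun h => one_ne_zero h.2)
        have a0' : phi a' i0 = 0 :=
          (ho' i0).resolve_right (by rw [h0']; exact fun h => one_ne_zero h.1)
        have a1' : phi a' i1 = 0 :=
          (ho' i1).resolve_right (by rw [h1']; exact fun h => one_ne_zero h.2)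
        have f0 := congrArg (fun v : L => phi v i0) e1
        have f1 := congrArg (fun v : L => phi v i1) e1
        simp only [map_add, map_zsmul, Pi.add_apply, Pi.smul_apply, a0, a0', h0', p0 i0 h0',
          add_zero, smul_eq_mul, mul_one, mul_zero] at f0
        simp only [map_add, map_zsmul, Pi.add_apply, Pi.smul_apply, a1, a1', h1', p1 i1 h1',
          add_zero, zero_add, smul_eq_mul, mul_one, mul_zero] at f1
        rw [← f0, ← f1, zero_smul, zero_smul, zero_add, zero_add] at e1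
        -- a port of `a`
        obtain ⟨u, hu⟩ : ∃ u, phi a u = 1 := by
          by_contra hcon
          push Not at hcon
          apply ha0
          apply hD.inj
          rw [map_zero]
          funext u
          exact (hD.bin a kb.c00 u).resolve_right (hcon u)
        have e5 := congrArg (fun v : L => phi v u) e1
        simp only [map_zsmul, Pi.smul_apply, hu, smul_eq_mul, mul_one] at e5
        rcases hD.bin a' kb'.c00 u with h | h
        · exfalso
          rw [h, mul_zero] at e5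
          rw [← e5, zero_smul] at e1
          have h3 : a' = 0 := (smul_eq_zero.mp e1).resolve_left hn
          rw [h3, map_zero] at hna'
          omega
        · rw [h, mul_one] at e5
          rw [← e5] at e1
          exact smul_right_injective L hn e1
      · left
        rcases eq_or_lt_of_le (hnn b hb) with h | h
        · exact hzero b hb h.symm
        · exact absurd ((memA b).mpr ⟨hb, h⟩) hbA
  exact ⟨a, lam, ray_base W.mco hD m hx ho kb.c00 ha0, by omega, hx⟩

end

end Pool.Agent.B5.O4V
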