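import Pool.Agent.Lib.MP_b5021c_nt.O4V.H40.Fr1
import Pool.Agent.Lib.MP_b5021c_nt.KO.H52.Bpf

/-!
# MP_b5021c_nt, all `θ`, K odd, (O1-iv), (4.3): the double closing `(B, B)` of an A-A pair has full
rank (drop one), part 2: THEOREM B' for the moved ray
-/

set_option linter.unusedSectionVars false

namespace Pool.Agent.B5.O4V

open scoped LaurentPolynomial
open Polynomial
open Pool.Agent.B5.KV (cs)
open Pool.Agent.B5.OOne (IvD)

section

variable {P L : Type} [Fintype P] [DecidableEq P] [AddCommGroup L] [Module.Free ℤ L]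
  [Module.Finite ℤ L]

/-- The data of THEOREM B' for the unit rays of the A-closings. -/
def RayA (phi : L →+ (P → ℤ)) (D : AO ℤ L) (E : ℤ[X]) (j : ℕ) (eta : L → (RO ℤ)ˣ) (S : L) :
    Prop :=
  ∀ (i0 : P) (h : co phi i0 S = 1) (x : Ker (co phi i0)),
    Ray (cl (co phi i0) S h (eta S) D) x → ∀ (w1 : (RO ℤ)ˣ) (g : ℤ[X]),
      (w1 : RO ℤ) * (cl (co phi i0) S h (eta S) D).coeff x = toLaurent g → g.coeff 0 = 1 →
        ∃ (Q K : Type) (_ : Fintype Q) (_ : DecidableEq Q) (_ : AddCommGroup K)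
          (_ : Module.Free ℤ K) (_ : Module.Finite ℤ K) (psi : K →+ (Q → ℤ)) (G : AO ℤ K) (x' : K)
          (w w' : (RO ℤ)ˣ), DD psi G ∧ ClassV j (G.coeff 0) ∧ Module.finrank ℤ K + 1 = 2 * j ∧
            Ray G x' ∧ (w : RO ℤ) * G.coeff 0 = toLaurent E ∧
              (w' : RO ℤ) * G.coeff x' = toLaurent g

variable {phi : L →+ (P → ℤ)} {D : AO ℤ L}

/-- THEOREM B' for a unit ray of an A-closing. -/
theorem RayA.bp (hB : BpS) {q : ℤ[X]} {a : ℝ} {j : ℕ} (ko : Ko phi D q a j) {E : ℤ[X]}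
    (hE : E.coeff 0 = j) {eta : L → (RO ℤ)ˣ} {S : L} (hA : RayA phi D E j eta S) {i0 : P}
    {h : co phi i0 S = 1} {x : Ker (co phi i0)} (hx : Ray (cl (co phi i0) S h (eta S) D) x)
    {w1 : (RO ℤ)ˣ} {g : ℤ[X]}
    (hw : (w1 : RO ℤ) * (cl (co phi i0) S h (eta S) D).coeff x = toLaurent g)
    (hg : g.coeff 0 = 1) (hg1 : g ≠ 1) : Bpf j E g := by
  obtain ⟨Q, K, _, _, _, _, _, psi, G, x', w, w', hD, hV, hr, hR, h0, h1⟩ := hA i0 h x hx w1 g hw hg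
  exact hB Q K psi G j x' w w' E g ko.j2 hD hV hr (fun k hk => ko.ih k (by omega)) hR h0 hE h1 hg
    hg1

/-- (FR1) A killing functional of the double closing `(B, B)` is zero. -/
theorem fr1_kil (W : KV.Rws) (hInj2 : Inj2S) (hV : VcoS) (hE2 : E2S) (hF1 : F1S) (hF2 : F2S)
    (hF3 : F3S) (hI : Inj1S) (hRk : RkUSS) (hL : LMNS) (hMco : McoS) (hOfa : OfaS)
    (hOfb : OfbS) (hO1 : Oo1S) (hB : BpS) {q f E : ℤ[X]} {a p : ℝ} {j g : ℕ}
    {eta : L → (RO ℤ)ˣ} {C : Set L} (hK : KcA phi D q f a j eta g C) (hu : f.coeff 0 = 1)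
    (hI4 : IvD q f E a p j) {S0 S1 : L} (hS0 : S0 ∈ C) (hS1 : S1 ∈ C)
    (m : Mut D S0 S1 (eta S0) (eta S1)) (hA : RayA phi D E j eta S0) {nu : L →+ ℤ}
    (hk : Kil phi D S0 S1 (eta S0 * tb) (eta S1 * tb) nu) : nu = 0 := by
  by_contra hnu
  have fp := hK.ko.min.fp
  have hD := fp.dd
  have h2 : 2 ≤ Module.finrank ℤ L := by have := hK.ko.rk; have := hK.ko.j2; omega
  obtain ⟨e0, he0, hRN0⟩ := hK.rn S0 hS0
  -- the apex
  have hap : cs D S0 S1 (eta S0 * tb) (eta S1 * tb) 0 ≠ 0 := by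
    rw [cs_zero (q := q) (f := f) hMco hD m hK.ko.D0
      (by rw [he0, KO.neg_S hRN0, map_neg])]
    intro h
    rw [map_eq_zero_iff _ toLaurent_injective] at h
    have h3 := congrArg (fun p => coeff p 0) h
    simp only [coeff_add, coeff_sub, mul_coeff_zero, coeff_zero] at h3
    have h4 : (((1 : ℤ[X]) + X) ^ 2).coeff 0 = 1 := by
      rw [coeff_zero_eq_eval_zero]
      simp
    rw [h4, hu, hK.ko.qn.q0] at h3
    norm_num at h3
  obtain ⟨b, lam, hb, hnb, hx⟩ := kil_ext W hInj2 h2 fp m hk hnu hap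
  -- designated loads
  obtain ⟨eta', hdes⟩ := KO.des_exists hE2 hOfa hO1 hK.ko
  have hee := KO.Kc_des hK.kc hdes
  have hK' : KcA phi D q f a j eta' g C := ⟨hK.ko, KO.Kc_congr hK.kc hee, fun S hS => by
    rw [hee S hS]; exact hK.rn S hS⟩
  obtain ⟨ho, i, k, p', r, kb, w, hw⟩ := moved hE2 hF1 hF2 hF3 hI hRk hL hMco W.mnf W.mpa hOfb hK'
    hu hdes hS0 hS1 (by rw [hee S0 hS0, hee S1 hS1]; exact m)
    (by rw [hee S0 hS0, hee S1 hS1]; exact hk) hb hnb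
  rw [hee S0 hS0, hee S1 hS1] at kb
  obtain ⟨i0, h0⟩ := KE.exists_port hD m.r0
  obtain ⟨x, hxR, hxc⟩ := ray_cl hV hMco hD m hx ho hb.2.1 kb.nf kb.p0 kb.u0' h0
  have hgw : ((w * eta S1 ^ k : (RO ℤ)ˣ) : RO ℤ) * (cl (co phi i0) S0 h0 (eta S0) D).coeff x =
      toLaurent ((1 + X) ^ 2 * f) := by
    rw [Units.val_mul, Units.val_pow_eq_pow_val, mul_assoc, hxc, hw, map_mul]
    rfl
  have hg0 : ((1 + X) ^ 2 * f : ℤ[X]).coeff 0 = 1 := by
    rw [mul_coeff_zero, hu, mul_one, coeff_zero_eq_eval_zero]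
    simp
  have hg1 : ((1 + X) ^ 2 * f : ℤ[X]) ≠ 1 := by
    intro h
    have h3 := congrArg (fun P => eval (-1) P) h
    simp only [eval_mul, eval_pow, eval_add, eval_one, eval_X] at h3
    norm_num at h3
  exact hI4.bp43 (hA.bp hB hK.ko hI4.e0 hxR hgw hg0 hg1)

/-- (FR1) THE DOUBLE CLOSING `(B, B)` OF AN A-A PAIR HAS FULL RANK. -/
theorem fr1 (W : KV.Rws) (hInj2 : Inj2S) (hV : VcoS) (hE2 : E2S) (hF1 : F1S) (hF2 : F2S)
    (hF3 : F3S) (hI : Inj1S) (hRk : RkUSS) (hL : LMNS) (hMco : McoS) (hRnk : RnkS) (hOfa : OfaS)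
    (hOfb : OfbS) (hO1 : Oo1S) (hB : BpS) {q f E : ℤ[X]} {a p : ℝ} {j g : ℕ}
    {eta : L → (RO ℤ)ˣ} {C : Set L} (hK : KcA phi D q f a j eta g C) (hu : f.coeff 0 = 1)
    (hI4 : IvD q f E a p j) {S0 S1 : L} (hS0 : S0 ∈ C) (hS1 : S1 ∈ C)
    (m : Mut D S0 S1 (eta S0) (eta S1)) (hA : RayA phi D E j eta S0) (X : Dp phi S0 S1) :
    rk (supp (dc X (eta S0 * tb) (eta S1 * tb) D)) + 2 = Module.finrank ℤ L := by
  have hD := hK.ko.min.fp.dd
  rw [hRnk ℤ P L phi D S0 S1 (eta S0) (eta S1) hD.inj hD.bin m X (eta S0 * tb) (eta S1 * tb)]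
  intro mu hmu
  exact fr1_kil W hInj2 hV hE2 hF1 hF2 hF3 hI hRk hL hMco hOfa hOfb hO1 hB hK hu hI4 hS0 hS1 m hA
    hmu

end

end Pool.Agent.B5.O4V
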