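import Pool.Agent.Lib.MP_b5021c_nt.KV.H96.Par
import Pool.Agent.Lib.MP_b5021c_nt.KO.H96.Patx

/-!
# MP_b5021c_nt, all `θ`, K odd, (O1-iv): killed classes of the double closing `(-z, -z)`

`S0`, `S1` mutual with the loads `e0`, `e1` (the loads A); `w^S0 = -z e0`, `w^S1 = -z e1`.
-/

set_option linter.unusedSectionVars false

namespace Pool.Agent.B5.O4V

open scoped LaurentPolynomial
open Polynomial
open Pool.Agent.B5.KV (cs Nz cs_nf)
open Pool.Agent.B5.H40 (uT)
open Pool.Agent.B5.H07 (US_sat mem_US)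

/-- `-z`. -/
noncomputable def tb : (RO ℤ)ˣ := uT (-1 : ℤˣ) 1

theorem tb_val : ((tb : (RO ℤ)ˣ) : RO ℤ) = -LaurentPolynomial.T 1 := by
  unfold tb
  rw [H40.uT_val]
  simp

/-- `(1 + z)²`. -/
noncomputable def lb : RO ℤ := toLaurent ((1 + X) ^ 2 : ℤ[X])

theorem lb_eq : lb = (1 + LaurentPolynomial.T 1) ^ 2 := by
  unfold lb
  rw [map_pow, map_add, map_one, toLaurent_X]

theorem tb_lb : (1 - ((tb : (RO ℤ)ˣ) : RO ℤ)) * (1 - ((tb : (RO ℤ)ˣ) : RO ℤ)) = lb := by
  rw [tb_val, lb_eq]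
  ring

theorem lb_ne : lb ≠ 0 := by
  unfold lb
  rw [toLaurent_ne_zero]
  intro h
  have := congrArg (fun p : ℤ[X] => p.eval 0) h
  simp at this

theorem tb_ne : tb ≠ 1 := by
  intro h
  have h1 := tb_val
  rw [h, Units.val_one] at h1
  have h2 : (toLaurent (-X : ℤ[X]) : RO ℤ) = toLaurent 1 := by
    rw [map_neg, toLaurent_X, map_one]
    exact h1.symm
  have h3 := congrArg (fun p : ℤ[X] => p.eval 0) (toLaurent_injective h2)
  simp at h3

theorem one_sub_lb : (1 : RO ℤ) - lb ≠ 0 := by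
  intro h
  have h1 : (toLaurent (1 - (1 + X) ^ 2 : ℤ[X]) : RO ℤ) = toLaurent 0 := by
    rw [map_sub, map_one, map_zero]
    exact h
  have h2 := congrArg (fun p : ℤ[X] => p.eval 1) (toLaurent_injective h1)
  norm_num at h2

/-- `1 - (1 + z)² = -z (2 + z)`. -/
theorem one_sub_lb' : (1 : RO ℤ) - lb = -(LaurentPolynomial.T 1 * toLaurent (2 + X : ℤ[X])) := by
  rw [lb_eq, map_add, toLaurent_X]
  have : (toLaurent (2 : ℤ[X]) : RO ℤ) = 2 := map_ofNat _ 2
  rw [this]
  ring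

theorem lb_T (n : ℤ) (h : lb = LaurentPolynomial.T n) : False := by
  have h1 := congrArg (fun p : RO ℤ => p.coeff 0) h
  have h2 := congrArg (fun p : RO ℤ => p.coeff 1) h
  have e : lb = LaurentPolynomial.T 0 + 2 * LaurentPolynomial.T 1 + LaurentPolynomial.T 2 := by
    rw [lb_eq, LaurentPolynomial.T_zero]
    have : (LaurentPolynomial.T 2 : RO ℤ) = LaurentPolynomial.T 1 * LaurentPolynomial.T 1 := by
      rw [← LaurentPolynomial.T_add]
      norm_num
    rw [this]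
    ring
  have e2 : (2 * LaurentPolynomial.T 1 : RO ℤ) = LaurentPolynomial.T 1 + LaurentPolynomial.T 1 := by
    ring
  rw [e, e2] at h1 h2
  simp only [AddMonoidAlgebra.coeff_add, Finsupp.add_apply, LaurentPolynomial.T_apply] at h1 h2
  norm_num at h1 h2
  split_ifs at h1 h2 <;> omega

section

variable {P L : Type} [Fintype P] [DecidableEq P] [AddCommGroup L] [Module.Free ℤ L]
  [Module.Finite ℤ L] {phi : L →+ (P → ℤ)} {D : AO ℤ L}

/-- A killed class of type `(i,j)`. -/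
structure Kb (D : AO ℤ L) (S0 S1 : L) (e0 e1 : (RO ℤ)ˣ) (a : L) (i j : ℕ)
    (p r : RO ℤ) : Prop where
  nf : Nf D S0 S1 e0 e1 a i j p r
  p0 : p ≠ 0
  r0 : r ≠ 0
  th : p * (tb : RO ℤ) ^ i * (tb : RO ℤ) ^ j = -(lb * r)
  u0 : a + i • S0 + j • S1 ∈ US e0 S0 D
  u1 : a + i • S0 + j • S1 ∈ US e1 S1 D

theorem kb_of (hMnf : MnfS) {S0 S1 : L} {e0 e1 : (RO ℤ)ˣ} {a : L}
    (inj : Function.Injective phi) (bin : ∀ a ∈ supp D, Bin phi a) (hM : Mut D S0 S1 e0 e1)
    (ha : Out phi S0 S1 a) (hc : cs D S0 S1 (e0 * tb) (e1 * tb) a = 0)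
    (hz : Nz D S0 S1 a) : ∃ (i j : ℕ) (p r : RO ℤ), Kb D S0 S1 e0 e1 a i j p r := by
  obtain ⟨i, j, p, r, hn, hu⟩ := hMnf ℤ P L phi D S0 S1 e0 e1 inj bin hM a ha
  rw [cs_nf hn, tb_lb] at hc
  have hr : r ≠ 0 := by
    rintro rfl
    have hp : p = 0 := by
      rw [mul_zero, add_zero] at hc
      have h1 := (mul_eq_zero.mp hc).resolve_right (pow_ne_zero _ tb.ne_zero)
      exact (mul_eq_zero.mp h1).resolve_right (pow_ne_zero _ tb.ne_zero)
    subst hp
    have h0 := hn.c00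
    have h1 := hn.c10
    have h2 := hn.c01
    have h3 := hn.c11
    simp only [ite_self, add_zero, sub_zero] at h0 h1 h2 h3
    rcases hz with h | h | h | h
    · exact h h0
    · exact h ((mul_eq_zero.mp h1).resolve_left e0.ne_zero)
    · exact h ((mul_eq_zero.mp h2).resolve_left e1.ne_zero)
    · exact h ((mul_eq_zero.mp h3).resolve_left (mul_ne_zero e0.ne_zero e1.ne_zero))
  have hp : p ≠ 0 := by
    rintro rfl
    rw [zero_mul, zero_mul, zero_add] at hc
    exact (mul_ne_zero lb_ne hr) hc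
  exact ⟨i, j, p, r, hn, hp, hr, by linear_combination hc, (hu hp).1, (hu hp).2⟩

section kb

variable {S0 S1 : L} {e0 e1 : (RO ℤ)ˣ} {a : L} {i j : ℕ} {p r : RO ℤ}

theorem Kb.c00 (h : Kb D S0 S1 e0 e1 a i j p r) : D.coeff a ≠ 0 := by
  rw [h.nf.c00]
  by_cases hij : i = 0 ∧ j = 0
  · rw [if_pos hij]
    have h1 := h.th
    rw [hij.1, hij.2, pow_zero, mul_one, mul_one] at h1
    rw [h1]
    have h2 : -(lb * r) + r = (1 - lb) * r := by ring
    rw [h2]
    exact mul_ne_zero one_sub_lb h.r0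
  · rw [if_neg hij, zero_add]
    exact h.r0

theorem TT1 : (LaurentPolynomial.T 1 : RO ℤ) * LaurentPolynomial.T 1 = LaurentPolynomial.T 2 := by
  rw [← LaurentPolynomial.T_add]
  norm_num

theorem Kb.c11 (h : Kb D S0 S1 e0 e1 a i j p r) : D.coeff (a + S0 + S1) ≠ 0 := by
  have h1 : (e0 : RO ℤ) * (e1 : RO ℤ) * D.coeff (a + S0 + S1) ≠ 0 := by
    rw [h.nf.c11]
    by_cases hij : i = 1 ∧ j = 1
    · rw [if_pos hij]
      have h1 := h.th
      rw [hij.1, hij.2, pow_one, tb_val] at h1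
      intro h2
      have h3 : p = -r := by linear_combination h2
      rw [h3] at h1
      apply lb_T 2
      rw [← TT1]
      apply mul_left_cancel₀ h.r0
      linear_combination h1
    · rw [if_neg hij, zero_add]
      exact h.r0
  exact fun h2 => h1 (by rw [h2, mul_zero])

theorem Kb.c10 (h : Kb D S0 S1 e0 e1 a i j p r) : D.coeff (a + S0) ≠ 0 := by
  have h1 : (e0 : RO ℤ) * D.coeff (a + S0) ≠ 0 := by
    rw [h.nf.c10]
    by_cases hij : i = 1 ∧ j = 0
    · rw [if_pos hij]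
      have h1 := h.th
      rw [hij.1, hij.2, pow_one, pow_zero, mul_one, tb_val] at h1
      intro h2
      have h3 : p = r := by linear_combination h2
      rw [h3] at h1
      apply lb_T 1
      apply mul_left_cancel₀ h.r0
      linear_combination h1
    · rw [if_neg hij, zero_sub]
      exact neg_ne_zero.mpr h.r0
  exact fun h2 => h1 (by rw [h2, mul_zero])

theorem Kb.c01 (h : Kb D S0 S1 e0 e1 a i j p r) : D.coeff (a + S1) ≠ 0 := by
  have h1 : (e1 : RO ℤ) * D.coeff (a + S1) ≠ 0 := by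
    rw [h.nf.c01]
    by_cases hij : i = 0 ∧ j = 1
    · rw [if_pos hij]
      have h1 := h.th
      rw [hij.1, hij.2, pow_one, pow_zero, mul_one, tb_val] at h1
      intro h2
      have h3 : p = r := by linear_combination h2
      rw [h3] at h1
      apply lb_T 1
      apply mul_left_cancel₀ h.r0
      linear_combination h1
    · rw [if_neg hij, zero_sub]
      exact neg_ne_zero.mpr h.r0
  exact fun h2 => h1 (by rw [h2, mul_zero])

/-- `a + j S1 ∈ U_0`. -/
theorem Kb.u0' (h : Kb D S0 S1 e0 e1 a i j p r) : a + j • S1 ∈ US e0 S0 D := by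
  have h1 := Submodule.sub_mem _ h.u0 (Submodule.smul_of_tower_mem (US e0 S0 D) i (mem_US e0 S0 D))
  have h2 : a + i • S0 + j • S1 - i • S0 = a + j • S1 := by abel
  rwa [h2] at h1

/-- `a + i S0 ∈ U_1`. -/
theorem Kb.u1' (h : Kb D S0 S1 e0 e1 a i j p r) : a + i • S0 ∈ US e1 S1 D := by
  have h1 := Submodule.sub_mem _ h.u1 (Submodule.smul_of_tower_mem (US e1 S1 D) j (mem_US e1 S1 D))
  rwa [add_sub_cancel_right] at h1

end kb

/-- The base of the class of a moved exponent. -/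
theorem kb_base (hMnf : MnfS) (hMpa : MpaS) {S0 S1 : L} {e0 e1 : (RO ℤ)ˣ} {nu : L →+ ℤ}
    (inj : Function.Injective phi) (bin : ∀ a ∈ supp D, Bin phi a)
    (hM : Mut D S0 S1 e0 e1) (hk : Kil phi D S0 S1 (e0 * tb) (e1 * tb) nu) {R : L}
    (hR : R ∈ supp D) (hn : nu R ≠ 0) :
    ∃ (a : L) (s t : ℕ), s ≤ 1 ∧ t ≤ 1 ∧ R = a + s • S0 + t • S1 ∧ Out phi S0 S1 a ∧ nu a = nu R ∧
      ∃ (i j : ℕ) (p r : RO ℤ), Kb D S0 S1 e0 e1 a i j p r := by
  rcases hMpa ℤ P L phi D S0 S1 e0 e1 inj bin hM R hR with ⟨h1, -⟩ | ⟨-, a, p, q, hp, hq, ha, hRa⟩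
  · exact absurd (hk.part R hR h1) hn
  · have hna : nu a = nu R := by
      rw [hRa, map_add, map_add, map_nsmul, map_nsmul, hk.s0, hk.s1]
      simp
    have hz : Nz D S0 S1 a := by
      have h2 := hR
      change D.coeff R ≠ 0 at h2
      rw [hRa] at h2
      rcases Nat.le_one_iff_eq_zero_or_eq_one.mp hp with h3 | h3 <;>
        rcases Nat.le_one_iff_eq_zero_or_eq_one.mp hq with h4 | h4 <;>
        rw [h3, h4] at h2 <;>
        simp only [zero_smul, one_smul, add_zero] at h2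
      · exact Or.inl h2
      · exact Or.inr (Or.inr (Or.inl h2))
      · exact Or.inr (Or.inl h2)
      · exact Or.inr (Or.inr (Or.inr h2))
    exact ⟨a, p, q, hp, hq, hRa, ha, hna,
      kb_of hMnf inj bin hM ha (hk.free a ha (by rw [hna]; exact hn)) hz⟩

/-- A ray moved by a killing functional is the base of its class. -/
theorem kb_ray (hMnf : MnfS) (hMpa : MpaS) {S0 S1 : L} {e0 e1 : (RO ℤ)ˣ}
    {nu : L →+ ℤ} (inj : Function.Injective phi) (bin : ∀ a ∈ supp D, Bin phi a)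
    (hM : Mut D S0 S1 e0 e1) (hk : Kil phi D S0 S1 (e0 * tb) (e1 * tb) nu) {R : L}
    (hR : Ray D R) (hn : nu R ≠ 0) :
    Out phi S0 S1 R ∧ ∃ (i j : ℕ) (p r : RO ℤ), Kb D S0 S1 e0 e1 R i j p r := by
  obtain ⟨a, s, t, hs, ht, hRa, ha, hna, i, j, p', r, kt⟩ :=
    kb_base hMnf hMpa inj bin hM hk hR.1 hn
  have haR : a = R := by
    by_contra hne
    obtain ⟨lam, hl0, hl⟩ := hR.2.2
    have ha0 : a ≠ 0 := by
      rintro rfl
      rw [map_zero] at hna
      exact hn hna.symm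
    have h3 := hl a kt.c00 ha0 hne
    have h4 : 0 < lam S0 := hl S0 hM.r0.1 hM.r0.2.1 (by rintro rfl; exact hn hk.s0)
    have h5 : 0 < lam S1 := hl S1 hM.r1.1 hM.r1.2.1 (by rintro rfl; exact hn hk.s1)
    rw [hRa, map_add, map_add, map_nsmul, map_nsmul] at hl0
    have h6 : (0 : ℤ) ≤ s • lam S0 := nsmul_nonneg h4.le s
    have h7 : (0 : ℤ) ≤ t • lam S1 := nsmul_nonneg h5.le t
    omega
  subst haR
  exact ⟨ha, i, j, p', r, kt⟩

end

end Pool.Agent.B5.O4V
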