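import Pool.Agent.Lib.MP_b5021c_nt.O4V.H40.Kb
import Pool.Agent.Lib.MP_b5021c_nt.O4V.H40.Ext
import Pool.Agent.Lib.MP_b5021c_nt.E.H61.Inj

/-!
# MP_b5021c_nt, all `θ`, K odd, (O1-iv): an extreme class modulo a mutual pair is a ray of `D` and
of the closing at `S0`
-/

set_option linter.unusedSectionVars false

namespace Pool.Agent.B5.O4V

open scoped LaurentPolynomial
open Polynomial
open Pool.Agent.B5.H07 (US_sat mem_US)

section

variable {P L : Type} [Fintype P] [DecidableEq P] [AddCommGroup L] [Module.Free ℤ L]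
  [Module.Finite ℤ L] {phi : L →+ (P → ℤ)} {D : AO ℤ L}

/-- `lam` exposes the class of `a` modulo `S0`, `S1`. -/
structure Xpo (D : AO ℤ L) (S0 S1 a : L) (lam : L →+ ℤ) : Prop where
  s0 : lam S0 = 0
  s1 : lam S1 = 0
  a0 : lam a = 0
  nn : ∀ b ∈ supp D, 0 ≤ lam b
  z : ∀ b ∈ supp D, lam b = 0 → (∃ k l : ℤ, b = k • S0 + l • S1) ∨
    ∃ k l : ℤ, b = a + k • S0 + l • S1

/-- The values at a port of `S0` and a port of `S1`. -/
theorem port_val (hMco : McoS) (inj : Function.Injective phi) (bin : ∀ a ∈ supp D, Bin phi a)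
    {S0 S1 : L} {e0 e1 : (RO ℤ)ˣ} (m : Mut D S0 S1 e0 e1) :
    (∀ i, phi S0 i = 1 → phi S1 i = 0) ∧ (∀ i, phi S1 i = 1 → phi S0 i = 0) := by
  have hd := (hMco ℤ P L phi D S0 S1 e0 e1 inj bin m).1
  refine ⟨fun i hi => (hd i).resolve_left (by rw [hi]; exact one_ne_zero),
    fun i hi => (hd i).resolve_right (by rw [hi]; exact one_ne_zero)⟩

/-- (RAYD) an exposed class with base `a` outside the pair: `a` is a ray of `D`. -/
theorem ray_base (hMco : McoS) (hD : DD phi D) {S0 S1 a : L} {e0 e1 : (RO ℤ)ˣ}
    (m : Mut D S0 S1 e0 e1) {lam : L →+ ℤ} (hx : Xpo D S0 S1 a lam) (ho : Out phi S0 S1 a)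
    (ha : D.coeff a ≠ 0) (ha0 : a ≠ 0) : Ray D a := by
  obtain ⟨i0, h0⟩ := KE.exists_port hD m.r0
  obtain ⟨i1, h1⟩ := KE.exists_port hD m.r1
  have h0' : phi S0 i0 = 1 := h0
  have h1' : phi S1 i1 = 1 := h1
  obtain ⟨p0, p1⟩ := port_val hMco hD.inj hD.bin m
  have a0 : phi a i0 = 0 := (ho i0).resolve_right (by rw [h0']; exact fun h => one_ne_zero h.1)
  have a1 : phi a i1 = 0 := (ho i1).resolve_right (by rw [h1']; exact fun h => one_ne_zero h.2)
  refine ⟨ha, ha0, lam + co phi i0 + co phi i1, ?_, ?_⟩
  · rw [AddMonoidHom.add_apply, AddMonoidHom.add_apply, hx.a0]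
    change 0 + phi a i0 + phi a i1 = 0
    rw [a0, a1]
    norm_num
  · intro b hb hb0 hba
    rw [AddMonoidHom.add_apply, AddMonoidHom.add_apply]
    change 0 < lam b + phi b i0 + phi b i1
    have hn := hx.nn b hb
    have b0 := hD.bin b hb i0
    have b1 := hD.bin b hb i1
    by_contra hcon
    have hl : lam b = 0 := by omega
    have hz0 : phi b i0 = 0 := by omega
    have hz1 : phi b i1 = 0 := by omega
    rcases hx.z b hb hl with ⟨k, l, hkl⟩ | ⟨k, l, hkl⟩
    · rw [hkl, map_add, map_zsmul, map_zsmul, Pi.add_apply, Pi.smul_apply, Pi.smul_apply, h0',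
        p0 i0 h0'] at hz0
      rw [hkl, map_add, map_zsmul, map_zsmul, Pi.add_apply, Pi.smul_apply, Pi.smul_apply, h1',
        p1 i1 h1'] at hz1
      have hk : k = 0 := by simpa using hz0
      have hl' : l = 0 := by simpa using hz1
      apply hb0
      rw [hkl, hk, hl', zero_smul, zero_smul, add_zero]
    · rw [hkl, map_add, map_add, map_zsmul, map_zsmul, Pi.add_apply, Pi.add_apply, Pi.smul_apply,
        Pi.smul_apply, h0', p0 i0 h0', a0] at hz0
      rw [hkl, map_add, map_add, map_zsmul, map_zsmul, Pi.add_apply, Pi.add_apply, Pi.smul_apply,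
        Pi.smul_apply, h1', p1 i1 h1', a1] at hz1
      have hk : k = 0 := by simpa using hz0
      have hl' : l = 0 := by simpa using hz1
      apply hba
      rw [hkl, hk, hl', zero_smul, zero_smul, add_zero, add_zero]

/-- An exponent of the closing lies in `U`. -/
theorem cl_mem_US (hV : VcoS) (hD : DD phi D) {S : L} (hS : Ray D S) {i0 : P}
    (h : co phi i0 S = 1) {e : (RO ℤ)ˣ} {y : Ker (co phi i0)}
    (hy : y ∈ supp (cl (co phi i0) S h e D)) : (y : L) ∈ US e S D := by
  have hb := hD.bin S hS.1
  obtain ⟨-, -, -, -, v5⟩ := hV ℤ P L phi D S e hD.inj hD.bin hb hS.2.1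
  refine ⟨1, one_ne_zero, ?_⟩
  rw [one_smul]
  apply Submodule.subset_span
  right
  change vco e S D (y : L) ≠ 0
  rw [← v5 i0 h y]
  exact hy

/-- `n x ∈ U`, `n ≠ 0`. -/
theorem US_div {e : (RO ℤ)ˣ} {S x : L} {n : ℤ} (hn : n ≠ 0) (h : n • x ∈ US e S D) :
    x ∈ US e S D := by
  obtain ⟨m, hm, hmx⟩ := h
  exact ⟨m * n, mul_ne_zero hm hn, by rw [mul_smul]; exact hmx⟩

/-- (RAYE) an exposed class, not killed by the closings at the two rays: a ray of the closing at
`S0`, with coefficient `p`. -/
theorem ray_cl (hV : VcoS) (hMco : McoS) (hD : DD phi D) {S0 S1 a : L} {e0 e1 : (RO ℤ)ˣ}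
    (m : Mut D S0 S1 e0 e1) {lam : L →+ ℤ} (hx : Xpo D S0 S1 a lam) (ho : Out phi S0 S1 a)
    (ha0 : a ≠ 0) {i j : ℕ} {p r : RO ℤ} (hn : Nf D S0 S1 e0 e1 a i j p r) (hp : p ≠ 0)
    (hu : a + j • S1 ∈ US e0 S0 D) {i0 : P} (h : co phi i0 S0 = 1) :
    ∃ x : Ker (co phi i0), Ray (cl (co phi i0) S0 h e0 D) x ∧
      (e1 : RO ℤ) ^ j * (cl (co phi i0) S0 h e0 D).coeff x = p := by
  have h0' : phi S0 i0 = 1 := h
  obtain ⟨p0, p1⟩ := port_val hMco hD.inj hD.bin m
  have hS1i : phi S1 i0 = 0 := p0 i0 h0'
  have a0 : phi a i0 = 0 := (ho i0).resolve_right (by rw [h0']; exact fun h => one_ne_zero h.1)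
  have hker : (co phi i0) (a + j • S1) = 0 := by
    change phi (a + j • S1) i0 = 0
    rw [map_add, map_nsmul, Pi.add_apply, Pi.smul_apply, hS1i, a0, smul_zero, add_zero]
  set x : Ker (co phi i0) := ⟨a + j • S1, hker⟩ with hxd
  have hxL : (x : L) = a + j • S1 := rfl
  have hbin : ∀ b ∈ supp D, co phi i0 b = 0 ∨ co phi i0 b = 1 := fun b hb => hD.bin b hb i0
  have hcx : (e1 : RO ℤ) ^ j * (cl (co phi i0) S0 h e0 D).coeff x = p := by
    rw [H47.cl_coeff_bin (co phi i0) S0 h e0 D hbin x, hxL]
    have c0 := hn.c00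
    have c1 := hn.c10
    have c2 := hn.c01
    have c3 := hn.c11
    rcases Nat.le_one_iff_eq_zero_or_eq_one.mp hn.j1 with hj | hj <;>
      rcases Nat.le_one_iff_eq_zero_or_eq_one.mp hn.i1 with hi | hi
    · subst hj; subst hi
      rw [if_pos (by norm_num)] at c0
      rw [if_neg (by norm_num)] at c1
      rw [zero_smul, add_zero, pow_zero, one_mul]
      linear_combination c0 + c1
    · subst hj; subst hi
      rw [if_neg (by norm_num)] at c0
      rw [if_pos (by norm_num)] at c1
      rw [zero_smul, add_zero, pow_zero, one_mul]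
      linear_combination c0 + c1
    · subst hj; subst hi
      rw [if_pos (by norm_num)] at c2
      rw [if_neg (by norm_num)] at c3
      rw [one_smul, pow_one, add_right_comm a S1 S0]
      linear_combination c2 + c3
    · subst hj; subst hi
      rw [if_neg (by norm_num)] at c2
      rw [if_pos (by norm_num)] at c3
      rw [one_smul, pow_one, add_right_comm a S1 S0]
      linear_combination c2 + c3
  refine ⟨x, ⟨?_, ?_, ?_⟩, hcx⟩
  · intro h0
    change (cl (co phi i0) S0 h e0 D).coeff x = 0 at h0
    rw [h0, mul_zero] at hcx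
    exact hp hcx.symm
  · intro h0
    have h1 : a + j • S1 = 0 := by rw [← hxL, h0]; rfl
    apply ha0
    rcases Nat.le_one_iff_eq_zero_or_eq_one.mp hn.j1 with hj | hj
    · rw [hj, zero_smul, add_zero] at h1
      exact h1
    · exfalso
      obtain ⟨i1, h1i⟩ := KE.exists_port hD m.r1
      have h1' : phi S1 i1 = 1 := h1i
      have a1 : phi a i1 = 0 := (ho i1).resolve_right (by rw [h1']; exact fun h => one_ne_zero h.2)
      have h2 : phi (a + j • S1) i1 = 1 := by
        rw [map_add, map_nsmul, Pi.add_apply, Pi.smul_apply, a1, h1', hj]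
        norm_num
      rw [h1, map_zero] at h2
      exact zero_ne_one h2
  · refine ⟨lam.comp (Ker (co phi i0)).subtype.toAddMonoidHom, ?_, ?_⟩
    · change lam (a + j • S1) = 0
      rw [map_add, map_nsmul, hx.a0, hx.s1, smul_zero, add_zero]
    · intro y hy hy0 hyx
      change 0 < lam (y : L)
      have hyU := cl_mem_US hV hD m.r0 h hy
      have hyk : phi (y : L) i0 = 0 := y.2
      obtain ⟨b, s, hb, hbs⟩ : ∃ (b : L) (s : ℕ), b ∈ supp D ∧ b = (y : L) + s • S0 := by
        change (cl (co phi i0) S0 h e0 D).coeff y ≠ 0 at hy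
        rw [H47.cl_coeff_bin (co phi i0) S0 h e0 D hbin y] at hy
        by_cases h1 : D.coeff (y : L) = 0
        · refine ⟨(y : L) + S0, 1, ?_, by rw [one_smul]⟩
          intro h2
          change D.coeff ((y : L) + S0) = 0 at h2
          rw [h1, h2, mul_zero, add_zero] at hy
          exact hy rfl
        · exact ⟨(y : L), 0, h1, by rw [zero_smul, add_zero]⟩
      have hlb : lam b = lam (y : L) := by
        rw [hbs, map_add, map_nsmul, hx.s0, smul_zero, add_zero]
      have hnn := hx.nn b hb
      rw [hlb] at hnn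
      rcases eq_or_lt_of_le hnn with hz | hz
      · exfalso
        rcases hx.z b hb (by rw [hlb]; exact hz.symm) with ⟨k, l, hkl⟩ | ⟨k, l, hkl⟩
        · have h1 : (y : L) = (k - s) • S0 + l • S1 := by
            have h2 : (y : L) = b - s • S0 := by rw [hbs]; abel
            rw [h2, hkl, sub_smul, natCast_zsmul]
            abel
          have h2 : k - s = 0 := by
            have h3 := hyk
            rw [h1, map_add, map_zsmul, map_zsmul, Pi.add_apply, Pi.smul_apply, Pi.smul_apply, h0',
              hS1i] at h3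
            simpa using h3
          rw [h2, zero_smul, zero_add] at h1
          have hl : l = 0 := by
            by_contra hl
            apply m.m0
            rw [h1] at hyU
            exact US_div hl hyU
          apply hy0
          apply Subtype.ext
          rw [h1, hl, zero_smul]
          rfl
        · have h1 : (y : L) = a + (k - s) • S0 + l • S1 := by
            have h2 : (y : L) = b - s • S0 := by rw [hbs]; abel
            rw [h2, hkl, sub_smul, natCast_zsmul]
            abel
          have h2 : k - s = 0 := by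
            have h3 := hyk
            rw [h1, map_add, map_add, map_zsmul, map_zsmul, Pi.add_apply, Pi.add_apply,
              Pi.smul_apply, Pi.smul_apply, h0', hS1i, a0] at h3
            simpa using h3
          rw [h2, zero_smul, add_zero] at h1
          have hl : l - j = 0 := by
            by_contra hl
            apply m.m0
            rw [h1] at hyU
            have h4 := Submodule.sub_mem _ hyU hu
            have h5 : a + l • S1 - (a + j • S1) = (l - j) • S1 := by
              rw [sub_smul, natCast_zsmul]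
              abel
            rw [h5] at h4
            exact US_div hl h4
          apply hyx
          apply Subtype.ext
          rw [h1, hxL]
          have h6 : l = j := by omega
          rw [h6, natCast_zsmul]
      · exact hz

end

end Pool.Agent.B5.O4V
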